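import Pool.Agent.helper66.SL.SpecK

/-! # Row KF3 of the slk project: a face is the convex hull of its vertices -/

set_option autoImplicit false

namespace Pool.Agent.helper66.SL

open Pool.Agent.helper52.FC

theorem KF3_proof : KF3 := by
  intro E _ L r P φ hK
  classical
  have hvp : ∀ (T : E → SignType) (h : IsTope L T), vp φ T = (φ ⟨T, h⟩).1 := by
    intro T h
    unfold vp
    rw [dif_pos h]
  refine ⟨fun S T hS hT hST => ?_, ?_⟩
  · rw [hvp S hS, hvp T hT] at hST
    have h1 := φ.injective (Subtype.ext hST)
    exact congrArg Subtype.val h1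
  · rintro F ⟨hF, hne⟩
    have hcv : Convex ℝ P := by
      obtain ⟨s, hs⟩ := hK.pol
      rw [hs]
      exact convex_convexHull ℝ _
    have hFcv : Convex ℝ F := hF.convex hcv
    obtain ⟨l, hl⟩ := hF hne
    have hfin : Finite {T : E → SignType // IsTope L T} := inferInstance
    have hP := hull hK.pol φ.toEquiv
    set V : Set (EuclideanSpace ℝ (Fin r)) := {x | ∃ T, IsTope L T ∧ vp φ T ∈ F ∧ x = vp φ T} with hV
    have key : ∀ x ∈ F, x ∈ convexHull ℝ V := by
      intro x hx
      have hx' := hx
      rw [hl] at hx'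
      obtain ⟨hxP, hmax⟩ := hx'
      have hxP' := hxP
      rw [hP, mem_convexHull_iff_exists_fintype] at hxP'
      obtain ⟨κ, _, w, z, hw, hw1, hz, hxz⟩ := hxP'
      have hzP : ∀ a, z a ∈ P := by
        intro a
        rw [hP]
        exact subset_convexHull ℝ _ (hz a)
      have h1 : ∑ a, w a * (l x - l (z a)) = 0 := by
        have h2 : l x = ∑ a, w a * l (z a) := by
          rw [← hxz, map_sum]
          simp only [map_smul, smul_eq_mul]
        simp only [mul_sub, Finset.sum_sub_distrib, ← Finset.sum_mul]
        rw [hw1, ← h2]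
        ring
      have h3 : ∀ a, w a ≠ 0 → z a ∈ V := by
        intro a ha
        have h4 := (Finset.sum_eq_zero_iff_of_nonneg fun a _ =>
          mul_nonneg (hw a) (sub_nonneg.2 (hmax _ (hzP a)))).1 h1 a (Finset.mem_univ _)
        have h5 : l x - l (z a) = 0 := (mul_eq_zero.1 h4).resolve_left ha
        have h6 : z a ∈ F := by
          rw [hl]
          refine ⟨hzP a, fun y hy => ?_⟩
          have h7 := hmax y hy
          linarith
        obtain ⟨⟨T, hT⟩, hTz⟩ := hz a
        have h8 : vp φ T = z a := by
          rw [hvp T hT]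
          exact hTz
        exact ⟨T, hT, by rw [h8]; exact h6, h8.symm⟩
      rw [← hxz, ← Finset.sum_filter_ne_zero]
      have h9 : ∑ a ∈ Finset.univ.filter (fun a => w a • z a ≠ 0), w a • z a =
          ∑ a ∈ Finset.univ.filter (fun a => w a ≠ 0), w a • z a := by
        rw [Finset.sum_filter_ne_zero]
        symm
        refine Finset.sum_filter_of_ne fun a _ hne' => ?_
        intro h0
        exact hne' (by rw [h0, zero_smul])
      rw [h9]
      refine (convex_convexHull ℝ V).sum_mem (fun a _ => hw a) ?_ fun a ha => ?_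
      · rw [← hw1]
        exact Finset.sum_filter_of_ne fun a _ h => h
      · exact subset_convexHull ℝ _ (h3 a (Finset.mem_filter.1 ha).2)
    constructor
    · obtain ⟨x, hx⟩ := hne
      obtain ⟨y, T, hT, hTF, _⟩ := convexHull_nonempty_iff.1 ⟨x, key x hx⟩
      exact ⟨T, hT, hTF⟩
    · refine Set.Subset.antisymm key (convexHull_min ?_ hFcv)
      rintro y ⟨T, _, hTF, rfl⟩
      exact hTF

end Pool.Agent.helper66.SL
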